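import Pool.Agent.H7.JB.Stmts
import Pool.Agent.H29.HZ.REF

/-!
Board `jb14`, row REG (helper23): refinement of the parts (after row REF of the board `hz12`, helper29).
-/

set_option autoImplicit false

open Finset

namespace Pool.JB7

open Pool.Agent.H23.KT Pool.Agent.H46.KW Pool.KQ Pool.GT7 Pool.GU7 Pool.HZ7

theorem reg_tot_mono {V : Type} (G : SimpleGraph V) {b : ℕ} (P P' : Fin b → Finset V)
    (h : ∀ i, P' i ⊆ P i) : tot G P' ≤ tot G P := by
  unfold tot
  refine sum_le_sum (fun i _ => sum_le_sum (fun k _ => ?_))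
  exact (sum_le_sum_of_subset (h i)).trans
    (sum_le_sum (fun u _ => card_le_card (ref_non_mono G (h k) u)))

theorem reg_thm : REGStmt := by
  intro p f C hf hC
  refine ⟨C + C / f, by positivity, fun e he he8 => ?_⟩
  refine ⟨⌈C / f / e⌉₊ + 1, ?_⟩
  intro a ha V _ G W P U hStr
  classical
  have ha1 : 1 ≤ a := by omega
  have haA : C / f ≤ e * a := by
    have h1 : C / f / e ≤ a := (Nat.le_ceil _).trans (Nat.cast_le.mpr (by omega))
    rw [div_le_iff₀ he] at h1
    linarith
  have ha0 : (0 : ℝ) < a := by exact_mod_cast ha1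
  obtain ⟨P', hP'⟩ : ∃ P' : Fin (p + 3) → Finset V, P' = refP G f a P := ⟨_, rfl⟩
  have hsub : ∀ i, P' i ⊆ P i := fun i => by rw [hP']; exact refP_sub G f a P i
  have hcard : ∀ i, ((P i \ P' i).card : ℝ) ≤ C / f := fun i => by
    rw [hP']
    exact ref_card G f C a P hf ha1 hStr.tot i
  have hpar : Par G P' :=
    ⟨fun i j hij => disjoint_of_subset_left (hsub i)
      (disjoint_of_subset_right (hsub j) (hStr.par.dis i j hij)),
      fun i u hu w hw => hStr.par.ind i u (hsub i hu) w (hsub i hw)⟩
  have hlow : ∀ i, ((P i).card : ℝ) ≤ (P' i).card + C / f := by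
    intro i
    have h1 : ((P i \ P' i).card : ℝ) + (P' i).card = (P i).card := by
      exact_mod_cast card_sdiff_add_card_eq_card (hsub i)
    have h2 := hcard i
    linarith
  have htot : (tot G P' : ℝ) ≤ C * a :=
    le_trans (by exact_mod_cast reg_tot_mono G P P' hsub) hStr.tot
  refine ⟨P', U ∪ univ.biUnion (fun i => P i \ P' i), ?_, subset_union_left, hsub, ?_⟩
  · refine ⟨hpar, ?_, ?_, ?_, ?_, ?_, htot, ?_⟩
    · intro i
      rw [disjoint_union_right]
      refine ⟨disjoint_of_subset_left (hsub i) (hStr.disU i), ?_⟩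
      rw [disjoint_biUnion_right]
      intro j _
      by_cases hij : i = j
      · subst hij
        exact disjoint_sdiff
      · exact disjoint_of_subset_left (hsub i)
          (disjoint_of_subset_right sdiff_subset (hStr.par.dis i j hij))
    · intro u
      rw [hStr.cov u, mem_union, mem_biUnion]
      constructor
      · rintro (h | ⟨i, hi⟩)
        · exact Or.inl (Or.inl h)
        · by_cases hu : u ∈ P' i
          · exact Or.inr ⟨i, hu⟩
          · exact Or.inl (Or.inr ⟨i, mem_univ _, mem_sdiff.mpr ⟨hi, hu⟩⟩)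
      · rintro ((h | ⟨i, -, hi⟩) | ⟨i, hi⟩)
        · exact Or.inl h
        · exact Or.inr ⟨i, (mem_sdiff.mp hi).1⟩
        · exact Or.inr ⟨i, hsub i hi⟩
    · intro i
      have h1 := hStr.lo i
      have h2 := hlow i
      nlinarith
    · intro i
      have h1 := hStr.hi i
      have h2 : ((P' i).card : ℝ) ≤ (P i).card := by exact_mod_cast card_le_card (hsub i)
      nlinarith
    · intro i u hu k hki
      have h1 : ((non G (P k) u).card : ℝ) ≤ f * a := by
        rw [hP'] at hu
        unfold refP at hu
        rw [mem_filter] at hu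
        exact hu.2 k hki
      exact le_trans (by exact_mod_cast card_le_card (ref_non_mono G (hsub k) u)) h1
    · have h1 : ((U ∪ univ.biUnion (fun i => P i \ P' i)).card : ℝ) ≤
          U.card + ∑ i, ((P i \ P' i).card : ℝ) := by
        exact_mod_cast (card_union_le _ _).trans (Nat.add_le_add_left card_biUnion_le _)
      have h2 := hStr.cU
      have h3 := ref_sum G f C a P hf ha1 hStr.tot
      rw [← hP'] at h3
      linarith
  · intro z hz
    rw [mem_sdiff, mem_union, mem_biUnion] at hz
    obtain ⟨hz1, hz2⟩ := hz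
    rcases hz1 with hz1 | ⟨i, -, hi⟩
    · exact absurd hz1 hz2
    · have hzi : z ∈ P i := (mem_sdiff.mp hi).1
      refine ⟨i, fun k hk => ?_, fun y hy => hStr.par.ind i z hzi y (hsub i hy)⟩
      exact le_trans (by exact_mod_cast card_le_card (ref_non_mono G (hsub k) z))
        (hStr.mis i z hzi k hk)

end Pool.JB7
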